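import Mathlib

/-!
# Concatenated 2-stage graphs: definitions and the cut lemma

The vertex classes are labelled by a type `V`; in the final statement `V = Fin n`, and the
linear order of a class is the order of its labels.
-/

namespace Pool.Agent.J6H40.Benes

/-- A 2-stage graph whose two classes are both labelled by `V`; `L i j` is the number of
(parallel) edges joining vertex `i` of the first class to vertex `j` of the second class.
For `V = Fin n` this is an ordered 2-stage graph with two classes of `n` vertices. -/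
abbrev TwoStage (V : Type) : Type := V → V → ℕ

/-- No multiple edges. -/
def IsSimple {V : Type} (L : TwoStage V) : Prop := ∀ i j, L i j ≤ 1

/-- All vertices (of both classes) have degree `k`. -/
def IsRegular {V : Type} [Fintype V] (L : TwoStage V) (k : ℕ) : Prop :=
  (∀ i, ∑ j, L i j = k) ∧ (∀ j, ∑ i, L i j = k)

/-- A plain path of the `(m+1)`-stage graph `L^m`: one vertex in each of the `m+1` classes,
and for each of the `m` copies of `L` one of the parallel edges of that copy which join the
two consecutive vertices. -/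
structure PlainPath {V : Type} (L : TwoStage V) (m : ℕ) where
  vert : Fin (m + 1) → V
  edge : (s : Fin m) → Fin (L (vert s.castSucc) (vert s.succ))

/-- The path `p` joins the source `a` to the target `b`. -/
def PlainPath.Joins {V : Type} {L : TwoStage V} {m : ℕ} (p : PlainPath L m) (a b : V) : Prop :=
  p.vert 0 = a ∧ p.vert (Fin.last m) = b

/-- The paths `p` and `q` of `L^m` have no edge in common. -/
def EdgeDisjoint {V : Type} {L : TwoStage V} {m : ℕ} (p q : PlainPath L m) : Prop :=
  ∀ s : Fin m, ¬ (p.vert s.castSucc = q.vert s.castSucc ∧ p.vert s.succ = q.vert s.succ ∧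
    (p.edge s).val = (q.edge s).val)

/-- `L^m` is externally connected. -/
def ExternallyConnected {V : Type} (L : TwoStage V) (m : ℕ) : Prop :=
  ∀ a b : V, ∃ p : PlainPath L m, p.Joins a b

/-- `M` (given by its edge multiplicities) is a mask for `L^m`, `m ≥ 1`: a 2-stage multigraph
with the same sources and targets, in which every vertex has the degree it has in `L^m`. -/
def IsMask {V : Type} [Fintype V] (L : TwoStage V) (M : V → V → ℕ) : Prop :=
  (∀ a, ∑ b, M a b = ∑ b, L a b) ∧ (∀ b, ∑ a, M a b = ∑ a, L a b)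

/-- `L^m` is rearrangeable: for every mask `M` there are pairwise edge-disjoint plain paths,
one for each edge of `M` (the `M a b` parallel edges from `a` to `b` are indexed by
`Fin (M a b)`), joining the two ends of that edge. -/
def Rearrangeable {V : Type} [Fintype V] (L : TwoStage V) (m : ℕ) : Prop :=
  ∀ M : V → V → ℕ, IsMask L M →
    ∃ P : (Σ a : V, Σ b : V, Fin (M a b)) → PlainPath L m,
      (∀ e, (P e).Joins e.1 e.2.1) ∧ (∀ e e', e ≠ e' → EdgeDisjoint (P e) (P e'))

/-- `F(L) = f`: the graph `L^f` is externally connected and `f ≥ 1` is least with this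
property. -/
def HasF {V : Type} (L : TwoStage V) (f : ℕ) : Prop :=
  1 ≤ f ∧ ExternallyConnected L f ∧ ∀ j, 1 ≤ j → j < f → ¬ ExternallyConnected L j

/-! ### Walks -/

/-- There is a walk of length `m` from `a` to `b`. -/
def Conn {V : Type} (L : TwoStage V) (m : ℕ) (a b : V) : Prop :=
  ∃ f : ℕ → V, f 0 = a ∧ f m = b ∧ ∀ s, s < m → 0 < L (f s) (f (s + 1))

lemma conn_iff {V : Type} (L : TwoStage V) (m : ℕ) (a b : V) :
    (∃ p : PlainPath L m, p.Joins a b) ↔ Conn L m a b := by
  constructor
  · rintro ⟨p, h0, h1⟩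
    refine ⟨fun i => if h : i < m + 1 then p.vert ⟨i, h⟩ else p.vert 0, ?_, ?_, ?_⟩
    · simpa using h0
    · have : m < m + 1 := Nat.lt_succ_self m
      simp only [this, dif_pos]
      exact h1
    · intro s hs
      have h2 : s < m + 1 := by omega
      have h3 : s + 1 < m + 1 := by omega
      simp only [h2, h3, dif_pos]
      exact lt_of_le_of_lt (Nat.zero_le _) (p.edge ⟨s, hs⟩).isLt
  · rintro ⟨f, h0, h1, h⟩
    exact ⟨⟨fun i => f i.val, fun s => ⟨0, h s.val s.isLt⟩⟩, h0, h1⟩

lemma ext_iff {V : Type} (L : TwoStage V) (m : ℕ) :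
    ExternallyConnected L m ↔ ∀ a b, Conn L m a b :=
  forall_congr' fun a => forall_congr' fun b => conn_iff L m a b

/-- A sequence which starts outside `h` and ends inside `h` has a crossing step. -/
lemma exists_cross {V : Type} (h : V → Prop) : ∀ (m : ℕ) (v : Fin (m + 1) → V),
    ¬ h (v 0) → h (v (Fin.last m)) → ∃ s : Fin m, ¬ h (v s.castSucc) ∧ h (v s.succ) := by
  intro m
  induction m with
  | zero =>
    intro v h0 h1
    exact absurd h1 h0
  | succ m ih =>
    intro v h0 h1
    by_cases hc : h (v (Fin.last m).castSucc)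
    · obtain ⟨s, hs1, hs2⟩ := ih (fun i => v i.castSucc) (by simpa using h0) hc
      exact ⟨s.castSucc, hs1, hs2⟩
    · exact ⟨Fin.last m, hc, h1⟩

/-- The cut lemma. Every path from the complement of `h` to `h` uses a crossing edge; if the
`k`-fold perfect matching `a ↦ τ a` contains more such demands than there are crossing
edges in the `m` copies, then `L^m` is not rearrangeable. -/
theorem not_rearr {V : Type} [Fintype V] [DecidableEq V] (L : TwoStage V) (hL : IsSimple L)
    (k : ℕ) (hreg : IsRegular L k) (τ : Equiv.Perm V) (h : V → Prop)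
    {W : Type} [Fintype W] (src : W → V) (hinj : Function.Injective src)
    (hs : ∀ w, ¬ h (src w)) (ht : ∀ w, h (τ (src w)))
    {E : Type} [Fintype E] (lab : V → V → E)
    (hlab : ∀ i j i' j', ¬ h i → h j → 0 < L i j → ¬ h i' → h j' → 0 < L i' j' →
      lab i j = lab i' j' → i = i' ∧ j = j')
    (m : ℕ) (hm : m * Fintype.card E < Fintype.card W * k) : ¬ Rearrangeable L m := by
  intro hR
  let M : V → V → ℕ := fun a b => if b = τ a then k else 0
  have hM : IsMask L M := by
    refine ⟨fun a => ?_, fun b => ?_⟩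
    · rw [hreg.1 a]
      simp [M]
    · rw [hreg.2 b]
      have : ∀ a, M a b = if a = τ.symm b then k else 0 := by
        intro a
        simp only [M]
        congr 1
        rw [eq_iff_iff, Equiv.eq_symm_apply]
        exact eq_comm
      simp [this]
  obtain ⟨P, hJ, hD⟩ := hR M hM
  let dem : W × Fin k → (Σ a : V, Σ b : V, Fin (M a b)) := fun x =>
    ⟨src x.1, τ (src x.1), ⟨x.2.val, by simp [M]⟩⟩
  have hdem : Function.Injective dem := by
    rintro ⟨x1, x2⟩ ⟨y1, y2⟩ hxy
    have h1 : src x1 = src y1 := congrArg (fun e => e.1) hxy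
    have h2 : x2.val = y2.val := congrArg (fun e => e.2.2.val) hxy
    exact Prod.ext (hinj h1) (Fin.ext h2)
  have hcross : ∀ x : W × Fin k, ∃ s : Fin m,
      ¬ h ((P (dem x)).vert s.castSucc) ∧ h ((P (dem x)).vert s.succ) := by
    intro x
    obtain ⟨h0, h1⟩ := hJ (dem x)
    apply exists_cross
    · rw [h0]; exact hs x.1
    · rw [h1]; exact ht x.1
  choose f hf using hcross
  let g : W × Fin k → Fin m × E := fun x =>
    (f x, lab ((P (dem x)).vert (f x).castSucc) ((P (dem x)).vert (f x).succ))
  have hg : Function.Injective g := by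
    intro x y hxy
    by_contra hne
    have hfe : f x = f y := congrArg Prod.fst hxy
    have hve : lab ((P (dem x)).vert (f x).castSucc) ((P (dem x)).vert (f x).succ) =
        lab ((P (dem y)).vert (f y).castSucc) ((P (dem y)).vert (f y).succ) :=
      congrArg Prod.snd hxy
    have hd := hD (dem x) (dem y) (fun h => hne (hdem h)) (f x)
    apply hd
    have hfy := hf y
    rw [← hfe] at hve hfy
    have e1 := lt_of_le_of_lt (Nat.zero_le _) ((P (dem x)).edge (f x)).isLt
    have e2 := lt_of_le_of_lt (Nat.zero_le _) ((P (dem y)).edge (f x)).isLt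
    obtain ⟨c1, c2⟩ := hlab _ _ _ _ (hf x).1 (hf x).2 e1 hfy.1 hfy.2 e2 hve
    have b1 := lt_of_lt_of_le ((P (dem x)).edge (f x)).isLt (hL _ _)
    have b2 := lt_of_lt_of_le ((P (dem y)).edge (f x)).isLt (hL _ _)
    exact ⟨c1, c2, by omega⟩
  have hcard := Fintype.card_le_of_injective g hg
  simp only [Fintype.card_prod, Fintype.card_fin] at hcard
  omega

/-- Transfer of a construction on an arbitrary finite vertex type to `Fin n`. -/
theorem transfer {V : Type} [Fintype V] [DecidableEq V] [Nonempty V] (L : TwoStage V)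
    (hL : IsSimple L) (k : ℕ) (hreg : IsRegular L k) (F : ℕ) (hF1 : 1 ≤ F)
    (hF : ∀ a b, Conn L F a b) (hF' : ∀ j, 1 ≤ j → j < F → ∃ a b, ¬ Conn L j a b)
    (τ : Equiv.Perm V) (h : V → Prop)
    {W : Type} [Fintype W] (src : W → V) (hinj : Function.Injective src)
    (hs : ∀ w, ¬ h (src w)) (ht : ∀ w, h (τ (src w)))
    {E : Type} [Fintype E] [Nonempty E] (lab : V → V → E)
    (hlab : ∀ i j i' j', ¬ h i → h j → 0 < L i j → ¬ h i' → h j' → 0 < L i' j' →
      lab i j = lab i' j' → i = i' ∧ j = j')
    (R : ℕ) (hR : R * Fintype.card E ≤ Fintype.card W * k) :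
    ∃ n : ℕ, n = Fintype.card V ∧ ∃ L' : TwoStage (Fin n), IsSimple L' ∧ IsRegular L' k ∧
      HasF L' F ∧ ∀ m, 1 ≤ m → m < R → ¬ Rearrangeable L' m := by
  let e : V ≃ Fin (Fintype.card V) := Fintype.equivFin V
  refine ⟨Fintype.card V, rfl, fun i j => L (e.symm i) (e.symm j), fun i j => hL _ _, ?_, ?_, ?_⟩
  · refine ⟨fun i => ?_, fun j => ?_⟩
    · rw [Equiv.sum_comp e.symm (fun y => L (e.symm i) y)]
      exact hreg.1 _
    · rw [Equiv.sum_comp e.symm (fun y => L y (e.symm j))]
      exact hreg.2 _
  · have key : ∀ m (a b : V), Conn L m a b ↔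
        Conn (fun i j => L (e.symm i) (e.symm j)) m (e a) (e b) := by
      intro m a b
      constructor
      · rintro ⟨f, h0, h1, h2⟩
        refine ⟨fun i => e (f i), by simp [h0], by simp [h1], ?_⟩
        intro s hs
        simpa using h2 s hs
      · rintro ⟨f, h0, h1, h2⟩
        refine ⟨fun i => e.symm (f i), by simp [h0], by simp [h1], ?_⟩
        intro s hs
        simpa using h2 s hs
    refine ⟨hF1, ?_, ?_⟩
    · rw [ext_iff]
      intro a b
      have := (key F (e.symm a) (e.symm b)).1 (hF _ _)
      simpa using this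
    · intro j h1 h2
      rw [ext_iff]
      intro hc
      obtain ⟨a, b, hab⟩ := hF' j h1 h2
      exact hab ((key j a b).2 (hc _ _))
  · intro m _ hm
    apply not_rearr (fun i j => L (e.symm i) (e.symm j)) (fun i j => hL _ _) k ?_
      ((e.symm.trans τ).trans e) (fun x => h (e.symm x)) (fun w => e (src w)) ?_ ?_ ?_
      (fun i j => lab (e.symm i) (e.symm j)) ?_ m ?_
    · refine ⟨fun i => ?_, fun j => ?_⟩
      · rw [Equiv.sum_comp e.symm (fun y => L (e.symm i) y)]
        exact hreg.1 _
      · rw [Equiv.sum_comp e.symm (fun y => L y (e.symm j))]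
        exact hreg.2 _
    · exact e.injective.comp hinj
    · intro w; simpa using hs w
    · intro w; simpa using ht w
    · intro i j i' j' a1 a2 a3 a4 a5 a6 a7
      obtain ⟨b1, b2⟩ := hlab _ _ _ _ a1 a2 a3 a4 a5 a6 a7
      exact ⟨e.symm.injective b1, e.symm.injective b2⟩
    · have hE : 0 < Fintype.card E := Fintype.card_pos
      exact lt_of_lt_of_le (Nat.mul_lt_mul_of_pos_right hm hE) hR

end Pool.Agent.J6H40.Benes
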