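import Pool.Agent.J6H40.Benes.Base

/-!
# The twisted de Bruijn graph

The alphabet is `Fin (q+2)` (so `k = q + 2`), words have length `e + 1`.  The vertices are
pairs (bit, word).  A step shifts the word and appends a letter; the bit is flipped exactly if
the last `e + 1 - c` letters of the word are all `0` and the appended letter is `1`.
-/

namespace Pool.Agent.J6H40.Benes

variable {q e : ℕ}

/-- Words of length `e+1` over `Fin (q+2)`. -/
abbrev Wd (q e : ℕ) : Type := Fin (e + 1) → Fin (q + 2)

/-- The letters of `u` in positions `≥ c` are all zero. -/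
def run (c : ℕ) (u : Wd q e) : Prop := ∀ i : Fin (e + 1), c ≤ i.val → u i = 0

instance (c : ℕ) (u : Wd q e) : Decidable (run c u) := by unfold run; infer_instance

/-- Is the step from word `u` to word `v` a twisted one? -/
def tw (c : ℕ) (u v : Wd q e) : Bool := decide (run c u ∧ v (Fin.last e) = 1)

/-- Word `v` arises from `u` by deleting the first letter and appending a letter. -/
def adj (u v : Wd q e) : Prop := ∀ i : Fin e, v i.castSucc = u i.succ

instance (u v : Wd q e) : Decidable (adj u v) := by unfold adj; infer_instance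

/-- The twisted de Bruijn graph. -/
def DB (q e c : ℕ) : TwoStage (Bool × Wd q e) := fun x y =>
  if adj x.2 y.2 ∧ y.1 = xor x.1 (tw c x.2 y.2) then 1 else 0

lemma DB_pos {c : ℕ} {x y : Bool × Wd q e} :
    0 < DB q e c x y ↔ adj x.2 y.2 ∧ y.1 = xor x.1 (tw c x.2 y.2) := by
  unfold DB
  split_ifs with h
  · simp [h]
  · simp [h]

lemma DB_simple (c : ℕ) : IsSimple (DB q e c) := by
  intro x y
  unfold DB
  split_ifs <;> omega

/-- append a letter -/
def nw (u : Wd q e) (a : Fin (q + 2)) : Wd q e :=
  Fin.snoc (α := fun _ => Fin (q + 2)) (Fin.tail u) a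

/-- prepend a letter -/
def pw (v : Wd q e) (a : Fin (q + 2)) : Wd q e :=
  Fin.cons (α := fun _ => Fin (q + 2)) a (Fin.init v)

lemma adj_iff_nw {u v : Wd q e} : adj u v ↔ v = nw u (v (Fin.last e)) := by
  constructor
  · intro h
    funext i
    refine Fin.lastCases ?_ (fun i => ?_) i
    · simp [nw]
    · rw [h i]
      simp [nw, Fin.tail]
  · intro h i
    rw [h]
    simp [nw, Fin.tail]

lemma adj_iff_pw {u v : Wd q e} : adj u v ↔ u = pw v (u 0) := by
  constructor
  · intro h
    funext i
    refine Fin.cases ?_ (fun i => ?_) i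
    · simp [pw]
    · rw [← h i]
      simp [pw, Fin.init]
  · intro h i
    rw [h]
    simp [pw, Fin.init]

lemma nw_last (u : Wd q e) (a : Fin (q + 2)) : nw u a (Fin.last e) = a := by simp [nw]

lemma pw_zero (u : Wd q e) (a : Fin (q + 2)) : pw u a 0 = a := by simp [pw]

lemma DB_regular (c : ℕ) : IsRegular (DB q e c) (q + 2) := by
  constructor
  · intro x
    have h1 : (Finset.univ.filter fun y : Bool × Wd q e =>
        adj x.2 y.2 ∧ y.1 = xor x.1 (tw c x.2 y.2)) =
        Finset.univ.image (fun a : Fin (q + 2) => (xor x.1 (tw c x.2 (nw x.2 a)), nw x.2 a)) := by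
      ext y
      simp only [Finset.mem_filter, Finset.mem_univ, true_and, Finset.mem_image]
      constructor
      · rintro ⟨ha, hb⟩
        refine ⟨y.2 (Fin.last e), ?_⟩
        rw [← adj_iff_nw.1 ha, ← hb]
      · rintro ⟨a, rfl⟩
        refine ⟨adj_iff_nw.2 ?_, rfl⟩
        simp only [nw_last]
    have h2 : Function.Injective
        (fun a : Fin (q + 2) => (xor x.1 (tw c x.2 (nw x.2 a)), nw x.2 a)) := by
      intro a b hab
      have := congrArg (fun y : Bool × Wd q e => y.2 (Fin.last e)) hab
      simpa [nw_last] using this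
    unfold DB
    rw [Finset.sum_boole, h1, Finset.card_image_of_injective _ h2]
    simp
  · intro y
    have h1 : (Finset.univ.filter fun x : Bool × Wd q e =>
        adj x.2 y.2 ∧ y.1 = xor x.1 (tw c x.2 y.2)) =
        Finset.univ.image (fun a : Fin (q + 2) => (xor y.1 (tw c (pw y.2 a) y.2), pw y.2 a)) := by
      ext x
      simp only [Finset.mem_filter, Finset.mem_univ, true_and, Finset.mem_image]
      constructor
      · rintro ⟨ha, hb⟩
        refine ⟨x.2 0, ?_⟩
        rw [← adj_iff_pw.1 ha, hb]
        ext1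
        · simp
        · rfl
      · rintro ⟨a, rfl⟩
        refine ⟨adj_iff_pw.2 ?_, ?_⟩
        · simp only [pw_zero]
        · simp
    have h2 : Function.Injective
        (fun a : Fin (q + 2) => (xor y.1 (tw c (pw y.2 a) y.2), pw y.2 a)) := by
      intro a b hab
      have := congrArg (fun y : Bool × Wd q e => y.2 0) hab
      simpa [pw_zero] using this
    unfold DB
    rw [Finset.sum_boole, h1, Finset.card_image_of_injective _ h2]
    simp

/-! ### Walks given by letter sequences -/

/-- window at time `t` -/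
def win (e : ℕ) (z : ℕ → Fin (q + 2)) (t : ℕ) : Wd q e := fun i => z (t + i.val)

/-- twist at time `t` -/
def sw (e c : ℕ) (z : ℕ → Fin (q + 2)) (t : ℕ) : Bool := tw c (win e z t) (win e z (t + 1))

/-- parity of the number of twists before time `m` -/
def par (e c : ℕ) (z : ℕ → Fin (q + 2)) : ℕ → Bool
  | 0 => false
  | m + 1 => xor (par e c z m) (sw e c z m)

lemma sw_true_iff (c : ℕ) (z : ℕ → Fin (q + 2)) (t : ℕ) :
    sw e c z t = true ↔ (∀ i, c ≤ i → i ≤ e → z (t + i) = 0) ∧ z (t + e + 1) = 1 := by
  unfold sw tw run win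
  rw [decide_eq_true_iff]
  constructor
  · rintro ⟨h1, h2⟩
    refine ⟨fun i hi hi' => h1 ⟨i, by omega⟩ hi, ?_⟩
    rw [← h2]
    congr 1
    simp
    omega
  · rintro ⟨h1, h2⟩
    refine ⟨fun i hi => h1 i.val hi (by omega), ?_⟩
    rw [← h2]
    congr 1
    simp
    omega

lemma conn_par (c : ℕ) (z : ℕ → Fin (q + 2)) (m : ℕ) (b : Bool) :
    Conn (DB q e c) m (b, win e z 0) (xor b (par e c z m), win e z m) := by
  refine ⟨fun t => (xor b (par e c z t), win e z t), ?_, rfl, ?_⟩
  · simp [par]
  · intro s _
    rw [DB_pos]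
    refine ⟨?_, ?_⟩
    · intro i
      simp only [win]
      congr 1
      simp
      omega
    · simp only [par, sw, Bool.xor_assoc]

lemma par_flip (c : ℕ) (z z' : ℕ → Fin (q + 2)) (j0 M : ℕ)
    (h : ∀ j, j < M → j ≠ j0 → sw e c z j = sw e c z' j)
    (h0 : sw e c z j0 = !sw e c z' j0) : ∀ m, m ≤ M →
    (m ≤ j0 → par e c z m = par e c z' m) ∧ (j0 < m → par e c z m = !par e c z' m) := by
  intro m
  induction m with
  | zero => intro _; exact ⟨fun _ => rfl, fun h => absurd h (by omega)⟩
  | succ m ih =>
    intro hm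
    obtain ⟨i1, i2⟩ := ih (by omega)
    refine ⟨fun hj => ?_, fun hj => ?_⟩
    · simp only [par]
      rw [i1 (by omega), h m (by omega) (by omega)]
    · simp only [par]
      rcases Nat.lt_or_ge j0 m with h1 | h1
      · rw [i2 h1, h m (by omega) (by omega)]
        simp
      · have : m = j0 := by omega
        subst this
        rw [i1 (le_refl _), h0]
        simp

/-- The letter sequence `u y v`, with `y` of length `e + 2 - c`. -/
def sq (c : ℕ) (u : Wd q e) (y : ℕ → Fin (q + 2)) (v : Wd q e) : ℕ → Fin (q + 2) := fun i =>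
  if h : i < e + 1 then u ⟨i, h⟩
  else if i < 2 * e + 3 - c then y (i - (e + 1))
  else if h : i - (2 * e + 3 - c) < e + 1 then v ⟨i - (2 * e + 3 - c), h⟩ else 0

lemma win_sq_zero (c : ℕ) (u : Wd q e) (y : ℕ → Fin (q + 2)) (v : Wd q e) :
    win e (sq c u y v) 0 = u := by
  funext i
  have : 0 + i.val < e + 1 := by omega
  simp only [win, sq, this, dif_pos]
  congr 1
  ext
  simp

lemma win_sq_end (c : ℕ) (hc : c ≤ e) (u : Wd q e) (y : ℕ → Fin (q + 2)) (v : Wd q e) :
    win e (sq c u y v) (2 * e + 3 - c) = v := by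
  funext i
  have h1 : ¬ (2 * e + 3 - c) + i.val < e + 1 := by omega
  have h2 : ¬ (2 * e + 3 - c) + i.val < 2 * e + 3 - c := by omega
  have h3 : (2 * e + 3 - c) + i.val - (2 * e + 3 - c) < e + 1 := by omega
  simp only [win, sq, h1, h2, h3, dif_neg, if_neg, dif_pos, not_false_eq_true]
  congr 1
  ext
  simp

lemma sq_mid (c : ℕ) (u : Wd q e) (y : ℕ → Fin (q + 2)) (v : Wd q e) (i : ℕ)
    (h1 : e + 1 ≤ i) (h2 : i < 2 * e + 3 - c) : sq c u y v i = y (i - (e + 1)) := by
  have h3 : ¬ i < e + 1 := by omega
  simp only [sq, h3, h2, dif_neg, if_pos, not_false_eq_true]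

lemma sq_big (c : ℕ) (u : Wd q e) (y y' : ℕ → Fin (q + 2)) (v : Wd q e) (i : ℕ)
    (h1 : e + 1 ≤ i) (h2 : 2 * e + 3 - c ≤ i) : sq c u y v i = sq c u y' v i := by
  have h3 : ¬ i < e + 1 := by omega
  have h4 : ¬ i < 2 * e + 3 - c := by omega
  simp only [sq, h3, h4, dif_neg, if_neg, not_false_eq_true]

lemma sq_small (c : ℕ) (u : Wd q e) (y : ℕ → Fin (q + 2)) (v : Wd q e) (i : ℕ)
    (h1 : i < e + 1) : sq c u y v i = u ⟨i, h1⟩ := by
  simp only [sq, h1, dif_pos]

/-- Two letter sequences with the same ends and opposite parities give all connections. -/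
lemma conn_of_flip (c : ℕ) (hc : c ≤ e) (u v : Wd q e) (y y' : ℕ → Fin (q + 2))
    (h : par e c (sq c u y v) (2 * e + 3 - c) = !par e c (sq c u y' v) (2 * e + 3 - c))
    (b b' : Bool) : Conn (DB q e c) (2 * e + 3 - c) (b, u) (b', v) := by
  have h1 := conn_par (e := e) c (sq c u y v) (2 * e + 3 - c) b
  have h2 := conn_par (e := e) c (sq c u y' v) (2 * e + 3 - c) b
  rw [win_sq_zero, win_sq_end c hc] at h1 h2
  rw [h] at h1
  generalize par e c (sq c u y' v) (2 * e + 3 - c) = p at h1 h2
  cases b <;> cases b' <;> cases p <;> first | exact h1 | exact h2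

theorem DB_conn (c : ℕ) (hc : c ≤ e) (x y : Bool × Wd q e) :
    Conn (DB q e c) (2 * e + 3 - c) x y := by
  obtain ⟨b, u⟩ := x
  obtain ⟨b', v⟩ := y
  by_cases hu : run c u
  · -- `y = 1 0^{ℓ-1}` against `y = 0^ℓ`; they differ at time 0
    apply conn_of_flip c hc u v (fun i => if i = 0 then 1 else 0) (fun _ => 0)
    refine (par_flip c _ _ 0 (2 * e + 3 - c) ?_ ?_ _ (le_refl _)).2 (by omega)
    · intro j hj hj0
      rw [Bool.eq_iff_iff, sw_true_iff, sw_true_iff]
      rcases Nat.lt_or_ge j (e + 2 - c) with h1 | h1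
      · -- letter at j + e + 1 is 0 in both
        have a1 : sq c u (fun i => if i = 0 then 1 else 0) v (j + e + 1) = 0 := by
          rw [sq_mid _ _ _ _ _ (by omega) (by omega)]
          exact if_neg (by omega)
        have a2 : sq c u (fun _ => 0) v (j + e + 1) = 0 := by
          rw [sq_mid _ _ _ _ _ (by omega) (by omega)]
        rw [a1, a2]
        simp
      · have a1 : sq c u (fun i => if i = 0 then 1 else 0) v (j + e + 1) =
            sq c u (fun _ => 0) v (j + e + 1) := sq_big _ _ _ _ _ _ (by omega) (by omega)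
        rw [a1]
        apply and_congr_left'
        refine forall_congr' fun i => forall_congr' fun hi => forall_congr' fun hi' => ?_
        rcases Nat.lt_or_ge (j + i) (2 * e + 3 - c) with h2 | h2
        · rw [sq_mid _ _ _ _ _ (by omega) h2, sq_mid _ _ _ _ _ (by omega) h2]
          have : j + i - (e + 1) ≠ 0 := by omega
          simp [this]
        · rw [sq_big _ _ _ (fun _ => 0) _ _ (by omega) h2]
    · have a1 : sw e c (sq c u (fun i => if i = 0 then 1 else 0) v) 0 = true := by
        rw [sw_true_iff]
        refine ⟨fun i hi hi' => ?_, ?_⟩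
        · rw [sq_small _ _ _ _ _ (by omega)]
          apply hu
          simpa using hi
        · rw [sq_mid _ _ _ _ _ (by omega) (by omega)]
          simp
      have a2 : sw e c (sq c u (fun _ => 0) v) 0 = false := by
        rw [Bool.eq_false_iff, Ne, sw_true_iff]
        rintro ⟨_, h2⟩
        rw [sq_mid _ _ _ _ _ (by omega) (by omega)] at h2
        exact absurd h2 (by simp)
      rw [a1, a2]; rfl
  · -- `y = 0^{ℓ-1} 1` against `y = 1^ℓ`; they differ at time `ℓ - 1`
    apply conn_of_flip c hc u v (fun i => if i = e + 1 - c then 1 else 0) (fun _ => 1)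
    have hnr : ∀ y : ℕ → Fin (q + 2), ¬ ∀ i, c ≤ i → i ≤ e → sq c u y v (0 + i) = 0 := by
      intro y h
      apply hu
      intro i hi
      have := h i.val hi (by omega)
      rw [sq_small _ _ _ _ _ (by omega)] at this
      rw [← this]
      congr 1
      ext
      simp
    refine (par_flip c _ _ (e + 1 - c) (2 * e + 3 - c) ?_ ?_ _ (le_refl _)).2 (by omega)
    · intro j hj hj0
      rw [Bool.eq_iff_iff, sw_true_iff, sw_true_iff]
      rcases Nat.lt_or_ge j (e + 2 - c) with h1 | h1
      · -- no twist in either
        have a1 : sq c u (fun i => if i = e + 1 - c then 1 else 0) v (j + e + 1) = 0 := by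
          rw [sq_mid _ _ _ _ _ (by omega) (by omega)]
          exact if_neg (by omega)
        have a2 : ¬ ∀ i, c ≤ i → i ≤ e → sq c u (fun _ => 1) v (j + i) = 0 := by
          rcases Nat.eq_zero_or_pos j with h0 | h0
          · subst h0
            exact hnr _
          · intro h
            have := h e hc (le_refl _)
            rw [sq_mid _ _ _ _ _ (by omega) (by omega)] at this
            exact absurd this (by simp)
        constructor
        · rintro ⟨_, h3⟩
          rw [a1] at h3
          exact absurd h3 (by simp)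
        · rintro ⟨h3, _⟩
          exact absurd h3 a2
      · have a1 : sq c u (fun i => if i = e + 1 - c then 1 else 0) v (j + e + 1) =
            sq c u (fun _ => 1) v (j + e + 1) := sq_big _ _ _ _ _ _ (by omega) (by omega)
        rw [a1]
        apply and_congr_left'
        rcases Nat.lt_or_ge (j + c) (2 * e + 3 - c) with h2 | h2
        · -- the run contains the last letter of `y`
          have hi : 2 * e + 3 - c - 1 - j ≤ e := by omega
          have hi' : c ≤ 2 * e + 3 - c - 1 - j := by omega
          constructor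
          · intro h
            have := h (2 * e + 3 - c - 1 - j) hi' hi
            rw [sq_mid _ _ _ _ _ (by omega) (by omega)] at this
            have h4 : j + (2 * e + 3 - c - 1 - j) - (e + 1) = e + 1 - c := by omega
            rw [h4] at this
            exact absurd this (by simp)
          · intro h
            have := h (2 * e + 3 - c - 1 - j) hi' hi
            rw [sq_mid _ _ _ _ _ (by omega) (by omega)] at this
            exact absurd this (by simp)
        · refine forall_congr' fun i => forall_congr' fun hi => forall_congr' fun hi' => ?_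
          rw [sq_big _ _ _ (fun _ => 1) _ _ (by omega) (by omega)]
    · have a1 : sw e c (sq c u (fun i => if i = e + 1 - c then 1 else 0) v) (e + 1 - c)
          = true := by
        rw [sw_true_iff]
        refine ⟨fun i hi hi' => ?_, ?_⟩
        · rw [sq_mid _ _ _ _ _ (by omega) (by omega)]
          have : e + 1 - c + i - (e + 1) ≠ e + 1 - c := by omega
          simp [this]
        · rw [sq_mid _ _ _ _ _ (by omega) (by omega)]
          have : e + 1 - c + e + 1 - (e + 1) = e + 1 - c := by omega
          simp [this]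
      have a2 : sw e c (sq c u (fun _ => 1) v) (e + 1 - c) = false := by
        rw [Bool.eq_false_iff, Ne, sw_true_iff]
        rintro ⟨h2, _⟩
        have := h2 e hc (le_refl _)
        rw [sq_mid _ _ _ _ _ (by omega) (by omega)] at this
        exact absurd this (by simp)
      rw [a1, a2]; rfl

/-- No shorter walk joins `(false, 1…1)` to `(true, 0…0)`. -/
theorem DB_notconn (c : ℕ) (hc : c ≤ e) (m : ℕ) (hm : m < 2 * e + 3 - c) :
    ¬ Conn (DB q e c) m (false, fun _ => 1) (true, fun _ => 0) := by
  rintro ⟨f, h0, h1, h2⟩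
  have inv : ∀ t, t ≤ m → (∀ i : Fin (e + 1), i.val + t < e + 1 → (f t).2 i = 1) ∧
      ((f t).1 = true → ∃ i : Fin (e + 1), 2 * (e + 1) - c ≤ i.val + t ∧ (f t).2 i ≠ 0) := by
    intro t
    induction t with
    | zero =>
      intro _
      rw [h0]
      exact ⟨fun i _ => rfl, fun h => absurd h (by simp)⟩
    | succ t ih =>
      intro ht
      obtain ⟨i1, i2⟩ := ih (by omega)
      obtain ⟨e1, e2⟩ := DB_pos.1 (h2 t (by omega))
      refine ⟨fun i hi => ?_, fun hb => ?_⟩
      · obtain ⟨i, hi'⟩ := i
        simp only at hi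
        have hie : i < e := by omega
        have h3 := e1 ⟨i, hie⟩
        have h4 : (⟨i, hie⟩ : Fin e).castSucc = ⟨i, hi'⟩ := rfl
        rw [h4] at h3
        rw [h3]
        apply i1
        simp only [Fin.val_succ]
        omega
      · rcases Bool.eq_false_or_eq_true ((f t).1) with hft | hft
        · -- the bit was already true
          obtain ⟨i, hi1, hi2⟩ := i2 hft
          have hi0 : 1 ≤ i.val := by omega
          have hlt : i.val - 1 < e := by omega
          refine ⟨(⟨i.val - 1, hlt⟩ : Fin e).castSucc, ?_, ?_⟩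
          · simp only [Fin.val_castSucc]
            omega
          · rw [e1]
            have : (⟨i.val - 1, hlt⟩ : Fin e).succ = i := by
              ext
              simp only [Fin.val_succ]
              omega
            rw [this]
            exact hi2
        · rw [hb, hft] at e2
          have e3 : tw c (f t).2 (f (t + 1)).2 = true := by
            simpa using e2.symm
          unfold tw at e3
          rw [decide_eq_true_iff] at e3
          obtain ⟨r1, r2⟩ := e3
          refine ⟨Fin.last e, ?_, ?_⟩
          · by_contra hlt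
            simp only [Fin.val_last] at hlt
            have hce : c < e + 1 := by omega
            have h5 := r1 ⟨c, hce⟩ (le_refl c)
            have h6 := i1 ⟨c, hce⟩ (by simp only; omega)
            rw [h5] at h6
            exact absurd h6 (by simp)
          · rw [r2]
            simp
  obtain ⟨_, i2⟩ := inv m (le_refl m)
  rw [h1] at i2
  obtain ⟨i, _, hi⟩ := i2 rfl
  exact hi rfl

theorem DB_final (q e c : ℕ) (hc : c ≤ e) :
    ∃ n : ℕ, n = 2 * (q + 2) ^ (e + 1) ∧ ∃ L' : TwoStage (Fin n),
      IsSimple L' ∧ IsRegular L' (q + 2) ∧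
      HasF L' (2 * e + 3 - c) ∧
      ∀ m, 1 ≤ m → m < (q + 2) ^ (e + 2 - c) → ¬ Rearrangeable L' m := by
  have key := transfer (V := Bool × Wd q e) (DB q e c) (DB_simple c) (q + 2) (DB_regular c)
    (2 * e + 3 - c) (by omega) (DB_conn c hc)
    (fun j _ hj => ⟨_, _, DB_notconn c hc j hj⟩)
    (τ := (Equiv.boolNot.prodCongr (Equiv.refl (Wd q e))))
    (h := fun x => x.1 = true) (W := Wd q e) (src := fun w => (false, w))
    (by intro a b hab; exact congrArg Prod.snd hab) (by intro w; simp)
    (by intro w; simp)
    (E := Fin c → Fin (q + 2))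
    (lab := fun x _ => fun i => x.2 ⟨i.val, by omega⟩)
    (by
      rintro ⟨i1, i2⟩ ⟨j1, j2⟩ ⟨i1', i2'⟩ ⟨j1', j2'⟩ a1 a2 a3 a4 a5 a6 a7
      simp only [Bool.not_eq_true] at a1 a4
      simp only at a2 a5
      subst a1 a4 a2 a5
      obtain ⟨b1, b2⟩ := DB_pos.1 a3
      obtain ⟨b3, b4⟩ := DB_pos.1 a6
      simp only at b1 b2 b3 b4
      have b2' : tw c i2 j2 = true := by simpa using b2.symm
      have b4' : tw c i2' j2' = true := by simpa using b4.symm
      unfold tw at b2' b4'
      rw [decide_eq_true_iff] at b2' b4'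
      have hi : i2 = i2' := by
        funext i
        by_cases hic : c ≤ i.val
        · rw [b2'.1 i hic, b4'.1 i hic]
        · have := congrFun a7 ⟨i.val, by omega⟩
          simpa using this
      subst hi
      refine ⟨rfl, ?_⟩
      have hj : j2 = j2' := by
        rw [adj_iff_nw.1 b1, adj_iff_nw.1 b3, b2'.2, b4'.2]
      rw [hj])
    ((q + 2) ^ (e + 2 - c)) (by
      simp only [Fintype.card_fun, Fintype.card_fin]
      rw [← pow_add, ← pow_succ]
      have : e + 2 - c + c = e + 1 + 1 := by omega
      rw [this])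
  obtain ⟨n, hn, L', h1, h2, h3, h4⟩ := key
  refine ⟨n, ?_, L', h1, h2, h3, h4⟩
  rw [hn]
  simp

end Pool.Agent.J6H40.Benes
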