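import Pool.Agent.J6H40.Benes.Base

/-!
# The block graph with `F = 2`, degree one, and the case `m = 1`
-/

namespace Pool.Agent.J6H40.Benes

/-! ### The block graph `[[J - I, I], [I, J - C]]` -/

/-- The block graph on `2 (r+3)` vertices. -/
def BL (r : ℕ) : TwoStage (Bool × Fin (r + 3)) := fun x y =>
  if x.1 = y.1 then (if y.2 = (if x.1 then x.2 + 1 else x.2) then 0 else 1)
  else (if y.2 = x.2 then 1 else 0)

lemma BL_simple (r : ℕ) : IsSimple (BL r) := by
  intro x y
  unfold BL
  split_ifs <;> omega

lemma sum_ne {r : ℕ} (a : Fin (r + 3)) :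
    (∑ j : Fin (r + 3), if j = a then 0 else 1) = r + 2 := by
  have h : (∑ j : Fin (r + 3), if j = a then 0 else 1) + (∑ j : Fin (r + 3), if j = a then 1 else 0)
      = r + 3 := by
    rw [← Finset.sum_add_distrib]
    have : ∀ j : Fin (r + 3), ((if j = a then 0 else 1) + (if j = a then 1 else 0) : ℕ) = 1 := by
      intro j; split_ifs <;> rfl
    simp [this]
  have h2 : (∑ j : Fin (r + 3), if j = a then 1 else 0) = 1 := by simp
  omega

lemma BL_regular (r : ℕ) : IsRegular (BL r) (r + 3) := by
  constructor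
  · rintro ⟨b, i⟩
    rw [Fintype.sum_prod_type]
    simp only [Fintype.sum_bool]
    cases b
    · simp only [BL]
      simp [sum_ne]
      omega
    · simp only [BL]
      simp [sum_ne]
  · rintro ⟨b, i⟩
    rw [Fintype.sum_prod_type]
    simp only [Fintype.sum_bool]
    have e1 : ∀ x : Fin (r + 3), (i = x + 1) ↔ (x = i - 1) := by
      intro x
      constructor
      · rintro rfl; simp
      · rintro rfl; simp
    have e2 : ∀ x : Fin (r + 3), (i = x) ↔ (x = i) := fun x => eq_comm
    cases b
    · simp only [BL]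
      simp [e2, sum_ne]
      omega
    · simp only [BL]
      simp [e1, sum_ne]

lemma exists_avoid {r : ℕ} (a b : Fin (r + 3)) : ∃ z : Fin (r + 3), z ≠ a ∧ z ≠ b := by
  have h : ({a, b} : Finset (Fin (r + 3))).card < (Finset.univ : Finset (Fin (r + 3))).card := by
    refine lt_of_le_of_lt Finset.card_le_two ?_
    simp
  obtain ⟨z, _, hz⟩ := Finset.exists_mem_notMem_of_card_lt_card h
  exact ⟨z, by simpa using hz⟩

lemma conn_two {V : Type} (L : TwoStage V) (a z b : V) (h1 : 0 < L a z) (h2 : 0 < L z b) :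
    Conn L 2 a b := by
  refine ⟨fun i => if i = 0 then a else if i = 1 then z else b, rfl, rfl, ?_⟩
  intro s hs
  rcases Nat.lt_or_ge s 1 with h | h
  · have : s = 0 := by omega
    subst this
    exact h1
  · have : s = 1 := by omega
    subst this
    exact h2

lemma BL_conn (r : ℕ) (x y : Bool × Fin (r + 3)) : Conn (BL r) 2 x y := by
  obtain ⟨b, i⟩ := x
  obtain ⟨b', j⟩ := y
  have hne : ∀ x : Fin (r + 3), x + 1 ≠ x := by
    intro x h
    simp at h
  cases b <;> cases b'
  · obtain ⟨z, h1, h2⟩ := exists_avoid i j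
    apply conn_two _ _ (false, z)
    · simp [BL, h1]
    · simp [BL, Ne.symm h2]
  · by_cases h : j = i
    · apply conn_two _ _ (true, i)
      · simp [BL]
      · simp only [BL]
        subst h
        simp
    · apply conn_two _ _ (false, j)
      · simp [BL, h]
      · simp [BL]
  · by_cases h : j = i
    · apply conn_two _ _ (true, j)
      · simp only [BL]
        subst h
        simp
      · simp [BL]
    · apply conn_two _ _ (false, i)
      · simp [BL]
      · simp [BL, h]
  · obtain ⟨z, h1, h2⟩ := exists_avoid (i + 1) (j - 1)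
    apply conn_two _ _ (true, z)
    · simp [BL, h1]
    · have : j ≠ z + 1 := by
        rintro rfl
        exact h2 (by simp)
      simp [BL, this]

lemma BL_notconn (r : ℕ) : ¬ Conn (BL r) 1 (false, 0) (false, 0) := by
  rintro ⟨f, h0, h1, h2⟩
  have := h2 0 (by omega)
  rw [h0, zero_add, h1] at this
  simp [BL] at this

theorem BL_final (r : ℕ) :
    ∃ n : ℕ, n = 2 * (r + 3) ∧ ∃ L' : TwoStage (Fin n), IsSimple L' ∧ IsRegular L' (r + 3) ∧
      HasF L' 2 ∧ ∀ m, 1 ≤ m → m < r + 3 → ¬ Rearrangeable L' m := by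
  have key := transfer (V := Bool × Fin (r + 3)) (BL r) (BL_simple r) (r + 3) (BL_regular r)
    2 (by omega) (BL_conn r)
    (fun j hj hj' => ⟨(false, 0), (false, 0), by
      have : j = 1 := by omega
      subst this
      exact BL_notconn r⟩)
    (τ := (Equiv.boolNot.prodCongr (Equiv.refl (Fin (r + 3)))))
    (h := fun x => x.1 = true) (W := Fin (r + 3)) (src := fun w => (false, w))
    (by intro a b hab; exact congrArg Prod.snd hab) (by intro w; simp)
    (by intro w; simp)
    (E := Fin (r + 3))
    (lab := fun x _ => x.2)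
    (by
      rintro ⟨i1, i2⟩ ⟨j1, j2⟩ ⟨i1', i2'⟩ ⟨j1', j2'⟩ a1 a2 a3 a4 a5 a6 a7
      simp only [Bool.not_eq_true] at a1 a4
      simp only at a2 a5 a7
      subst a1 a4 a2 a5 a7
      simp only [BL, Bool.false_eq_true, if_false] at a3 a6
      refine ⟨rfl, ?_⟩
      have b1 : j2 = i2 := by
        by_contra h
        simp [h] at a3
      have b2 : j2' = i2 := by
        by_contra h
        simp [h] at a6
      rw [b1, b2])
    (r + 3) (by simp)
  obtain ⟨n, hn, L', h1, h2, h3, h4⟩ := key
  refine ⟨n, ?_, L', h1, h2, h3, h4⟩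
  rw [hn]
  simp

/-! ### Degree one -/

theorem deg_one (n : ℕ) (L : TwoStage (Fin n)) (hreg : IsRegular L 1)
    (m : ℕ) (hext : ExternallyConnected L m) (m' : ℕ) : Rearrangeable L m' := by
  have huniq : ∀ a z z' : Fin n, 0 < L a z → 0 < L a z' → z = z' := by
    intro a z z' h1 h2
    by_contra hne
    have h3 : ∑ j ∈ {z, z'}, L a j ≤ ∑ j, L a j :=
      Finset.sum_le_sum_of_subset (Finset.subset_univ _)
    rw [hreg.1 a, Finset.sum_pair hne] at h3
    omega
  have hsub : ∀ a b : Fin n, a = b := by
    intro a b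
    obtain ⟨f, f0, f1, f2⟩ := (ext_iff L m).1 hext a a
    obtain ⟨g, g0, g1, g2⟩ := (ext_iff L m).1 hext a b
    have : ∀ t, t ≤ m → f t = g t := by
      intro t
      induction t with
      | zero => intro _; rw [f0, g0]
      | succ t ih =>
        intro ht
        have h1 := f2 t (by omega)
        have h2 := g2 t (by omega)
        rw [← ih (by omega)] at h2
        exact huniq _ _ _ h1 h2
    rw [← f1, ← g1]
    exact this m (le_refl m)
  have hLaa : ∀ a b : Fin n, L a b = 1 := by
    intro a b
    have := hreg.1 a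
    rw [← this]
    rw [Finset.sum_eq_single b]
    · intro c _ hc
      exact absurd (hsub c b) hc
    · intro h
      exact absurd (Finset.mem_univ b) h
  intro M hM
  refine ⟨fun e => ⟨fun _ => e.1, fun s => ⟨0, by rw [hLaa]; exact Nat.one_pos⟩⟩, ?_, ?_⟩
  · rintro ⟨a, b, i⟩
    exact ⟨rfl, hsub a b⟩
  · rintro ⟨a, b, i⟩ ⟨a', b', i'⟩ hne
    exfalso
    apply hne
    have h1 := hsub a a'
    have h2 := hsub b b'
    subst h1 h2
    have h3 : M a b ≤ 1 := by
      have h4 : M a b ≤ ∑ j, M a j := Finset.single_le_sum (f := fun j => M a j)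
        (fun j _ => Nat.zero_le _) (Finset.mem_univ b)
      rw [hM.1 a, hreg.1 a] at h4
      exact h4
    have : i = i' := by
      ext
      have := i.isLt
      have := i'.isLt
      omega
    rw [this]

/-! ### The case `m = 1`: edge colouring -/

/-- In a square natural number matrix with all line sums equal to `r + 1` there is a
permutation supported on the positive entries. -/
lemma exists_perm {n : ℕ} (r : ℕ) (M : Fin n → Fin n → ℕ) (h1 : ∀ a, ∑ b, M a b = r + 1)
    (h2 : ∀ b, ∑ a, M a b = r + 1) : ∃ σ : Equiv.Perm (Fin n), ∀ a, 0 < M a (σ a) := by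
  classical
  let t : Fin n → Finset (Fin n) := fun a => Finset.univ.filter fun b => 0 < M a b
  have hall : ∀ s : Finset (Fin n), s.card ≤ (s.biUnion t).card := by
    intro s
    have e1 : (r + 1) * s.card = ∑ a ∈ s, ∑ b, M a b := by
      rw [Finset.sum_congr rfl (fun a _ => h1 a), Finset.sum_const, smul_eq_mul, mul_comm]
    have e2 : ∑ a ∈ s, ∑ b, M a b = ∑ a ∈ s, ∑ b ∈ s.biUnion t, M a b := by
      apply Finset.sum_congr rfl
      intro a ha
      symm
      apply Finset.sum_subset (Finset.subset_univ _)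
      intro b _ hb
      by_contra h
      apply hb
      rw [Finset.mem_biUnion]
      exact ⟨a, ha, by simp only [t, Finset.mem_filter, Finset.mem_univ, true_and]; omega⟩
    have e3 : ∑ a ∈ s, ∑ b ∈ s.biUnion t, M a b ≤ ∑ b ∈ s.biUnion t, ∑ a, M a b := by
      rw [Finset.sum_comm]
      apply Finset.sum_le_sum
      intro b _
      exact Finset.sum_le_sum_of_subset (Finset.subset_univ _)
    have e4 : ∑ b ∈ s.biUnion t, ∑ a, M a b = (r + 1) * (s.biUnion t).card := by
      rw [Finset.sum_congr rfl (fun b _ => h2 b), Finset.sum_const, smul_eq_mul, mul_comm]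
    have e5 : (r + 1) * s.card ≤ (r + 1) * (s.biUnion t).card := by
      rw [e1, e2, ← e4]; exact e3
    exact Nat.le_of_mul_le_mul_left e5 (Nat.succ_pos r)
  obtain ⟨f, hf, hf'⟩ := (Finset.all_card_le_biUnion_card_iff_exists_injective t).1 hall
  refine ⟨Equiv.ofBijective f (Finite.injective_iff_bijective.1 hf), fun a => ?_⟩
  have := hf' a
  simpa [t] using this

/-- König: a regular bipartite multigraph is a union of perfect matchings. -/
lemma exists_decomp {n : ℕ} : ∀ (r : ℕ) (M : Fin n → Fin n → ℕ), (∀ a, ∑ b, M a b = r) →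
    (∀ b, ∑ a, M a b = r) →
    ∃ σ : Fin r → Equiv.Perm (Fin n), ∀ a b, M a b = ∑ z, if σ z a = b then 1 else 0 := by
  intro r
  induction r with
  | zero =>
    intro M h1 _
    refine ⟨fun z => z.elim0, fun a b => ?_⟩
    have h := h1 a
    rw [Finset.sum_eq_zero_iff] at h
    rw [h b (Finset.mem_univ b)]
    simp
  | succ r ih =>
    intro M h1 h2
    obtain ⟨τ, hτ⟩ := exists_perm r M h1 h2
    have hle : ∀ a b, (if τ a = b then 1 else 0) ≤ M a b := by
      intro a b
      split_ifs with h
      · rw [← h]; exact hτ a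
      · exact Nat.zero_le _
    obtain ⟨σ, hσ⟩ := ih (fun a b => M a b - if τ a = b then 1 else 0) (by
      intro a
      have h3 : ∑ b, (M a b - if τ a = b then 1 else 0) + ∑ b, (if τ a = b then 1 else 0) =
          ∑ b, M a b := by
        rw [← Finset.sum_add_distrib]
        exact Finset.sum_congr rfl fun b _ => Nat.sub_add_cancel (hle a b)
      rw [h1 a] at h3
      have h4 : ∑ b, (if τ a = b then 1 else 0) = 1 := by simp
      omega) (by
      intro b
      have h3 : ∑ a, (M a b - if τ a = b then 1 else 0) + ∑ a, (if τ a = b then 1 else 0) =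
          ∑ a, M a b := by
        rw [← Finset.sum_add_distrib]
        exact Finset.sum_congr rfl fun a _ => Nat.sub_add_cancel (hle a b)
      rw [h2 b] at h3
      have h4 : ∑ a, (if τ a = b then 1 else 0) = 1 := by
        have : ∀ a, (τ a = b) ↔ (a = τ.symm b) := by
          intro a
          rw [Equiv.eq_symm_apply]
        simp [this]
      omega)
    refine ⟨Fin.cons τ σ, fun a b => ?_⟩
    rw [Fin.sum_univ_succ]
    simp only [Fin.cons_zero, Fin.cons_succ]
    rw [← hσ a b]
    have := hle a b
    omega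

/-- If `L` is simple, regular and externally connected then `L^2` is rearrangeable. -/
theorem m_one (n k : ℕ) (L : TwoStage (Fin n)) (hL : IsSimple L) (hreg : IsRegular L k)
    (hext : ExternallyConnected L 1) : Rearrangeable L 2 := by
  classical
  have hone : ∀ a b, L a b = 1 := by
    intro a b
    obtain ⟨f, f0, f1, f2⟩ := (ext_iff L 1).1 hext a b
    have h := f2 0 (by omega)
    rw [f0, zero_add, f1] at h
    have := hL a b
    omega
  intro M hM
  have hr1 : ∀ a, ∑ b, M a b = n := by
    intro a
    rw [hM.1 a]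
    simp [hone]
  have hr2 : ∀ b, ∑ a, M a b = n := by
    intro b
    rw [hM.2 b]
    simp [hone]
  obtain ⟨σ, hσ⟩ := exists_decomp n M hr1 hr2
  have hcard : ∀ a b, Fintype.card {z : Fin n // σ z a = b} = M a b := by
    intro a b
    rw [hσ a b, Fintype.card_subtype, Finset.card_filter]
  have heq : ∀ a b, Nonempty (Fin (M a b) ≃ {z : Fin n // σ z a = b}) := by
    intro a b
    exact ⟨(Fintype.equivFinOfCardEq (hcard a b)).symm⟩
  let E : ∀ a b, Fin (M a b) ≃ {z : Fin n // σ z a = b} := fun a b => (heq a b).some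
  refine ⟨fun e => ⟨![e.1, (E e.1 e.2.1 e.2.2).val, e.2.1], fun s => ⟨0, by
    rw [hone]; exact Nat.one_pos⟩⟩, ?_, ?_⟩
  · rintro ⟨a, b, i⟩
    exact ⟨rfl, rfl⟩
  · rintro ⟨a, b, i⟩ ⟨a', b', i'⟩ hne s
    rintro ⟨h1, h2, -⟩
    apply hne
    have p1 := (E a b i).property
    have p2 := (E a' b' i').property
    have hh1 : ∀ z z' a a' b b', σ z a = b → σ z' a' = b' → a = a' → z = z' → b = b' := by
      rintro z _ a _ b b' h h' rfl rfl
      exact h.symm.trans h'
    have hh2 : ∀ z z' a a' b b', σ z a = b → σ z' a' = b' → z = z' → b = b' → a = a' := by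
      rintro z _ a a' b _ h h' rfl rfl
      exact (σ z).injective (h.trans h'.symm)
    have key : a = a' ∧ b = b' ∧ (E a b i).val = (E a' b' i').val := by
      fin_cases s
      · have q1 : a = a' := h1
        have q2 : (E a b i).val = (E a' b' i').val := h2
        exact ⟨q1, hh1 _ _ _ _ _ _ p1 p2 q1 q2, q2⟩
      · have q1 : (E a b i).val = (E a' b' i').val := h1
        have q2 : b = b' := h2
        exact ⟨hh2 _ _ _ _ _ _ p1 p2 q1 q2, q2, q1⟩
    obtain ⟨k1, k2, k3⟩ := key
    subst k1 k2
    have : i = i' := (E a b).injective (Subtype.ext k3)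
    rw [this]

end Pool.Agent.J6H40.Benes
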